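import Pool.Agent.MP_ad1a12_co.Defs
import Pool.Agent.MP_ad1a12_co.Mg.Real2

namespace Pool.Agent.Results.MP_ad1a12_co.Crystallographic

open Pool.Agent.MP_ad1a12_co

/-- Irreducible crystallographic affine Tits arrangements of rank three are unions of a
universally bounded number of parallel classes, so their dual point sets lie on a curve. -/
theorem result : ∃ N : ℕ, ∀ (R : Set (Fin 3 → ℝ)) (d : Fin 3 → ℝ), IsAffineTits R d →
    IsIrred R d → IsCryst R d → ∃ S : Finset (Fin 3 → ℝ), S.card ≤ N ∧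
      (∀ v ∈ S, v ≠ 0 ∧ d ⬝ᵥ v = 0) ∧ (∀ r ∈ R, ∃ v ∈ S, r ⬝ᵥ v = 0) ∧
      ∃ Q : MvPolynomial (Fin 3) ℝ, Q ≠ 0 ∧ Q.IsHomogeneous S.card ∧
        ∀ r ∈ R, MvPolynomial.eval r Q = 0 :=
  main

end Pool.Agent.Results.MP_ad1a12_co.Crystallographic
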